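import Pool.Agent.Lib.E6.Final

namespace Pool.Agent.Results.MP_e519cf_lc.CodeReduction

open Equiv Pool.Agent.Lib.MP_e519cf_lc Pool.Agent.Lib.E6

/-- Computing `N_H(G)` for arbitrary `G, H ≤ S_n` reduces in polynomial time to setwise
stabilisers and to normalisers in symmetric groups of elementary abelian `p`-groups all of whose
orbits have at most `p` points (linear codes over prime fields). -/
theorem result :
    ∃ (Q : NIn × List Tabs → Qr) (A : NIn × List Tabs → Tabs) (P : Polynomial ℕ),
      Nonempty (Turing.TM2ComputableInPolyTime (codeP codeNI (codeL codeT)) codeQ Q) ∧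
      Nonempty (Turing.TM2ComputableInPolyTime (codeP codeNI (codeL codeT)) codeT A) ∧
      ∀ (n : ℕ) (gs hs : List (Perm (Fin n))) (t : List Tabs),
        (∀ (k : ℕ) (hk : k < t.length), Ans (Q ((n, gs.map tab, hs.map tab), t.take k)) t[k]) →
        (codeQ (Q ((n, gs.map tab, hs.map tab), t))).length ≤
            P.eval (codeNI (n, gs.map tab, hs.map tab)).length ∧
        (t.length = P.eval (codeNI (n, gs.map tab, hs.map tab)).length →
          ∃ out : List (Perm (Fin n)), A ((n, gs.map tab, hs.map tab), t) = out.map tab ∧
            gen out = gen hs ⊓ Subgroup.normalizer (gen gs : Set (Perm (Fin n)))) :=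
  final

end Pool.Agent.Results.MP_e519cf_lc.CodeReduction
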