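import Pool.Agent.Lib.MP_e519cf_lc.Main

namespace Pool.Agent.Results.MP_e519cf_lc.GiantQuotient

open Equiv Pool.Agent.Lib.MP_e519cf_lc Pointwise

/-- Setwise stabilisers in the groups of `InClass d s` reduce, in time polynomial in the degree
and in `s`, to one computation of a normaliser in a full symmetric group. -/
theorem result (d : ℕ) : ∃ (Q : Inp → ℕ × Tabs) (A : Inp × Tabs → Tabs),
    Nonempty (Turing.TM2ComputableInPolyTime codeI (codeP codeN codeT) Q) ∧
    Nonempty (Turing.TM2ComputableInPolyTime (codeP codeI codeT) codeT A) ∧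
    ∀ (n s : ℕ) (gens : List (Perm (Fin n))) (Γ Δ : List (Fin n)),
      InClass d s (gen gens) {x | x ∈ Γ} →
      ∃ (m : ℕ) (hs : List (Perm (Fin m))), Q (inp s gens Γ Δ) = (m, hs.map tab) ∧
        ∀ ns : List (Perm (Fin m)), gen ns = Subgroup.normalizer (gen hs : Set (Perm (Fin m))) →
          ∃ out : List (Perm (Fin n)), A (inp s gens Γ Δ, ns.map tab) = out.map tab ∧
            gen out = gen gens ⊓ MulAction.stabilizer (Perm (Fin n)) {x | x ∈ Δ} :=
  ⟨queryL d, answerL d, query_tm d, answer_tm d, fun _ s gens Γ Δ h => correct d s gens Γ Δ h⟩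

end Pool.Agent.Results.MP_e519cf_lc.GiantQuotient
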